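import Mathlib
import Pool.Agent.Helper79.Comap
import Pool.Agent.TH138.LG.Pump

/-!
# Well quasi-orders and context-freeness for shuffle closures

For `I` the set of the six permutations of `abc`, the relation `⊢_I*` is a well quasi-order on
`L_I`, the set of words with equally many `a`, `b` and `c`, but `L_I` is not context-free.
-/

namespace Pool.Agent.Results.MP_709eaf_lc.PermutationsAbc

/-- `u ⊢_I v`: the word `u` is `u_1 u_2 ... u_{n+1}` and `v` is `u_1 a_1 u_2 a_2 ... u_n a_n u_{n+1}`
for some `n ≥ 1` and a word `a_1 ... a_n` of `I`. The list `l` consists of the pairs `(u_i, a_i)`,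
`1 ≤ i ≤ n`, and `z` is `u_{n+1}`. -/
def Step {A : Type} (I : Set (List A)) (u v : List A) : Prop :=
  ∃ (l : List (List A × A)) (z : List A), l ≠ [] ∧ l.map Prod.snd ∈ I ∧
    u = (l.map Prod.fst).flatten ++ z ∧ v = (l.map fun p => p.1 ++ [p.2]).flatten ++ z

/-- `⊢_I*`, the reflexive-transitive closure of `⊢_I`. -/
def Steps {A : Type} (I : Set (List A)) : List A → List A → Prop :=
  Relation.ReflTransGen (Step I)

/-- `L_I`, the set of words `u` with `ε ⊢_I* u`. -/
def ShuffleClosure {A : Type} (I : Set (List A)) : Language A := {u | Steps I [] u}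

/-- `⊢_I*` is a well quasi-order on `L_I`: every infinite sequence of words of `L_I` has indices
`i < j` with `x_i ⊢_I* x_j`. -/
def IsWqo {A : Type} (I : Set (List A)) : Prop :=
  ∀ x : ℕ → List A, (∀ n, x n ∈ ShuffleClosure I) → ∃ i j, i < j ∧ Steps I (x i) (x j)

/-- The six permutations of `abc` (`a = 0`, `b = 1`, `c = 2`). -/
def I0 : Set (List (Fin 3)) := {w | w.Perm [0, 1, 2]}

lemma I0_finite : I0.Finite := by
  have : I0 ⊆ {w | w ∈ ([0, 1, 2] : List (Fin 3)).permutations} := by
    intro w hw
    exact List.mem_permutations.2 hw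
  exact Set.Finite.subset (List.finite_toSet _) this

lemma I0_ne : ∀ w ∈ I0, w ≠ [] := by
  intro w hw h
  subst h
  have := List.Perm.length_eq hw
  simp at this

/-- the words with equally many `a`, `b`, `c` -/
def E : Set (List (Fin 3)) := {w | w.count 0 = w.count 1 ∧ w.count 1 = w.count 2}

lemma step_count {u v : List (Fin 3)} (h : Step I0 u v) (c : Fin 3) :
    v.count c = u.count c + 1 := by
  obtain ⟨l, z, -, hl, rfl, rfl⟩ := h
  have key : ∀ l : List (List (Fin 3) × Fin 3),
      (l.map fun p => p.1 ++ [p.2]).flatten.count c =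
        (l.map Prod.fst).flatten.count c + (l.map Prod.snd).count c := by
    intro l
    induction l with
    | nil => simp
    | cons p l ih =>
        simp only [List.map_cons, List.flatten_cons, List.count_append, ih, List.count_cons,
          List.count_nil]
        omega
  rw [List.count_append, List.count_append, key, List.Perm.count_eq hl]
  have : ([0, 1, 2] : List (Fin 3)).count c = 1 := by
    fin_cases c <;> decide
  omega

lemma fin3 : ∀ a : Fin 3, a = 0 ∨ a = 1 ∨ a = 2 := by decide

lemma closure_sub : ∀ w ∈ ShuffleClosure I0, w ∈ E := by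
  intro w hw
  replace hw : Relation.ReflTransGen (Step I0) [] w := hw
  induction hw with
  | refl => simp [E]
  | tail _ h ih =>
      obtain ⟨h1, h2⟩ := ih
      refine ⟨?_, ?_⟩
      · rw [step_count h, step_count h, h1]
      · rw [step_count h, step_count h, h2]

lemma step_of_three {x y z : Fin 3} (h : [x, y, z] ∈ I0) (m0 m1 m2 m3 : List (Fin 3)) :
    Step I0 (m0 ++ m1 ++ m2 ++ m3) (m0 ++ x :: m1 ++ y :: m2 ++ z :: m3) :=
  ⟨[(m0, x), (m1, y), (m2, z)], m3, by simp, by simpa using h, by simp, by simp⟩

/-- three distinct members of a list occur in some order -/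
lemma three_split {B : Type} {p q r : B} {m : List B} (hp : p ∈ m) (hq : q ∈ m) (hr : r ∈ m)
    (hpq : p ≠ q) (hpr : p ≠ r) (hqr : q ≠ r) :
    ∃ x y z m0 m1 m2 m3, [x, y, z].Perm [p, q, r] ∧
      m = m0 ++ x :: m1 ++ y :: m2 ++ z :: m3 := by
  obtain ⟨s, t, rfl⟩ := List.append_of_mem hp
  have hq' : q ∈ s ∨ q ∈ t := by
    rcases List.mem_append.1 hq with h | h
    · exact Or.inl h
    · rcases List.mem_cons.1 h with h | h
      · exact absurd h.symm hpq
      · exact Or.inr h
  have hr' : r ∈ s ∨ r ∈ t := by
    rcases List.mem_append.1 hr with h | h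
    · exact Or.inl h
    · rcases List.mem_cons.1 h with h | h
      · exact absurd h.symm hpr
      · exact Or.inr h
  -- two distinct members
  have two : ∀ l : List B, q ∈ l → r ∈ l → ∃ x y l0 l1 l2, [x, y].Perm [q, r] ∧
      l = l0 ++ x :: l1 ++ y :: l2 := by
    intro l h1 h2
    obtain ⟨a, b, rfl⟩ := List.append_of_mem h1
    rcases List.mem_append.1 h2 with h | h
    · obtain ⟨a1, a2, rfl⟩ := List.append_of_mem h
      exact ⟨r, q, a1, a2, b, List.Perm.swap _ _ _, by simp⟩
    · rcases List.mem_cons.1 h with h | h
      · exact absurd h.symm hqr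
      · obtain ⟨b1, b2, rfl⟩ := List.append_of_mem h
        exact ⟨q, r, a, b1, b2, List.Perm.refl _, by simp⟩
  rcases hq' with hq' | hq' <;> rcases hr' with hr' | hr'
  · obtain ⟨x, y, l0, l1, l2, h, rfl⟩ := two s hq' hr'
    refine ⟨x, y, p, l0, l1, l2, t, ?_, by simp⟩
    have : [x, y, p].Perm [q, r, p] := by
      simpa using h.append_right [p]
    refine this.trans ?_
    exact (List.perm_append_comm (l₁ := [q, r]) (l₂ := [p]))
  · obtain ⟨a1, a2, rfl⟩ := List.append_of_mem hq'
    obtain ⟨b1, b2, rfl⟩ := List.append_of_mem hr'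
    refine ⟨q, p, r, a1, a2, b1, b2, ?_, by simp⟩
    exact List.Perm.swap _ _ _
  · obtain ⟨a1, a2, rfl⟩ := List.append_of_mem hr'
    obtain ⟨b1, b2, rfl⟩ := List.append_of_mem hq'
    refine ⟨r, p, q, a1, a2, b1, b2, ?_, by simp⟩
    exact (List.perm_append_comm (l₁ := [r]) (l₂ := [p, q]))
  · obtain ⟨x, y, l0, l1, l2, h, rfl⟩ := two t hq' hr'
    refine ⟨p, x, y, s, l0, l1, l2, ?_, by simp⟩
    exact h.cons p

/-- adding balanced unmarked letters -/
lemma steps_of_marked : ∀ (n : ℕ) (m : List (Fin 3 × Bool)), m.length ≤ n →
    (m.filter fun p => !p.2).map Prod.fst ∈ E →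
    Steps I0 ((m.filter fun p => p.2).map Prod.fst) (m.map Prod.fst) := by
  intro n
  induction n with
  | zero =>
      intro m hm _
      have : m = [] := List.length_eq_zero_iff.1 (by omega)
      subst this
      exact Relation.ReflTransGen.refl
  | succ n ih =>
      intro m hm hE
      by_cases h0 : m.filter (fun p => !p.2) = []
      · have : m.filter (fun p => p.2) = m := by
          rw [List.filter_eq_self]
          intro p hp
          by_contra hc
          have : p ∈ m.filter (fun p => !p.2) := List.mem_filter.2 ⟨hp, by simpa using hc⟩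
          rw [h0] at this
          simp at this
        rw [this]
        exact Relation.ReflTransGen.refl
      · -- all three letters occur unmarked
        set d := (m.filter fun p => !p.2).map Prod.fst with hd
        have hpos : 0 < d.count 0 := by
          by_contra hc
          have h1 : d.count 0 = 0 := by omega
          have h2 : d.count 1 = 0 := by rw [← hE.1]; exact h1
          have h3 : d.count 2 = 0 := by rw [← hE.2]; exact h2
          apply h0
          have hdn : d = [] := by
            rw [List.eq_nil_iff_forall_not_mem]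
            intro a ha
            rw [List.count_eq_zero] at h1 h2 h3
            rcases fin3 a with rfl | rfl | rfl
            · exact h1 ha
            · exact h2 ha
            · exact h3 ha
          rw [hd] at hdn
          exact List.map_eq_nil_iff.1 hdn
        have hmem : ∀ c : Fin 3, 0 < d.count c → (c, false) ∈ m := by
          intro c hc
          rw [List.count_pos_iff, hd, List.mem_map] at hc
          obtain ⟨⟨a, b⟩, hab, rfl⟩ := hc
          obtain ⟨h1, h2⟩ := List.mem_filter.1 hab
          simp only [Bool.not_eq_true'] at h2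
          subst h2
          exact h1
        have h1 := hmem 0 hpos
        have h2 := hmem 1 (by rw [← hE.1]; exact hpos)
        have h3 := hmem 2 (by rw [← hE.2, ← hE.1]; exact hpos)
        obtain ⟨x, y, z, m0, m1, m2, m3, hperm, rfl⟩ :=
          three_split h1 h2 h3 (by decide) (by decide) (by decide)
        have hxf : x.2 = false ∧ y.2 = false ∧ z.2 = false := by
          have hall : ∀ t ∈ [x, y, z], t.2 = false := by
            intro t ht
            have := hperm.mem_iff.1 ht
            simp only [List.mem_cons, List.not_mem_nil, or_false] at this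
            rcases this with rfl | rfl | rfl <;> rfl
          exact ⟨hall x (by simp), hall y (by simp), hall z (by simp)⟩
        obtain ⟨hx, hy, hz⟩ := hxf
        have hI : [x.1, y.1, z.1] ∈ I0 := by
          have := hperm.map Prod.fst
          simpa [I0] using this
        have hcnt : ∀ c : Fin 3, d.count c =
            (((m0 ++ m1 ++ m2 ++ m3).filter fun p => !p.2).map Prod.fst).count c + 1 := by
          intro c
          have hc3 : [x.1, y.1, z.1].count c = 1 := by
            rw [List.Perm.count_eq hI]
            fin_cases c <;> decide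
          simp only [List.count_cons, List.count_nil] at hc3
          rw [hd]
          simp only [List.filter_append, List.filter_cons, hx, hy, hz, List.map_append,
            List.map_cons, List.count_append, List.count_cons, Bool.not_false, if_true]
          omega
        have hE' : ((m0 ++ m1 ++ m2 ++ m3).filter fun p => !p.2).map Prod.fst ∈ E := by
          obtain ⟨e1, e2⟩ := hE
          rw [hcnt, hcnt] at e1
          rw [hcnt, hcnt] at e2
          exact ⟨by omega, by omega⟩
        have hlen : (m0 ++ m1 ++ m2 ++ m3).length ≤ n := by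
          simp only [List.length_append, List.length_cons] at hm ⊢
          omega
        have hrec := ih _ hlen hE'
        have hfil : (m0 ++ x :: m1 ++ y :: m2 ++ z :: m3).filter (fun p => p.2) =
            (m0 ++ m1 ++ m2 ++ m3).filter (fun p => p.2) := by
          simp [List.filter_append, hx, hy, hz]
        rw [hfil]
        refine Relation.ReflTransGen.tail hrec ?_
        have := step_of_three hI (m0.map Prod.fst) (m1.map Prod.fst) (m2.map Prod.fst)
          (m3.map Prod.fst)
        simpa using this

/-- a sublist is given by marking letters -/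
lemma marked_of_sublist {u v : List (Fin 3)} (h : u.Sublist v) :
    ∃ m : List (Fin 3 × Bool), (m.filter fun p => p.2).map Prod.fst = u ∧ m.map Prod.fst = v := by
  induction h with
  | slnil => exact ⟨[], rfl, rfl⟩
  | cons a _ ih =>
      obtain ⟨m, h1, h2⟩ := ih
      exact ⟨(a, false) :: m, by simpa using h1, by simpa using h2⟩
  | cons_cons a _ ih =>
      obtain ⟨m, h1, h2⟩ := ih
      exact ⟨(a, true) :: m, by simpa using h1, by simpa using h2⟩

lemma count_marked (m : List (Fin 3 × Bool)) (c : Fin 3) :
    (m.map Prod.fst).count c = ((m.filter fun p => p.2).map Prod.fst).count c +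
      ((m.filter fun p => !p.2).map Prod.fst).count c := by
  induction m with
  | nil => simp
  | cons p m ih =>
      obtain ⟨a, b⟩ := p
      cases b
      · have e1 : ((a, false) :: m).filter (fun p => p.2) = m.filter fun p => p.2 := rfl
        have e2 : ((a, false) :: m).filter (fun p => !p.2) = (a, false) :: m.filter fun p => !p.2 :=
          rfl
        rw [e1, e2]
        simp only [List.map_cons, List.count_cons, ih]
        omega
      · have e1 : ((a, true) :: m).filter (fun p => p.2) = (a, true) :: m.filter fun p => p.2 := rfl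
        have e2 : ((a, true) :: m).filter (fun p => !p.2) = m.filter fun p => !p.2 := rfl
        rw [e1, e2]
        simp only [List.map_cons, List.count_cons, ih]
        omega

lemma steps_of_sublist {u v : List (Fin 3)} (hu : u ∈ E) (hv : v ∈ E) (h : u.Sublist v) :
    Steps I0 u v := by
  obtain ⟨m, rfl, rfl⟩ := marked_of_sublist h
  refine steps_of_marked m.length m le_rfl ?_
  have h0 := count_marked m 0
  have h1 := count_marked m 1
  have h2 := count_marked m 2
  obtain ⟨a1, a2⟩ := hu
  obtain ⟨b1, b2⟩ := hv
  exact ⟨by omega, by omega⟩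

lemma closure_eq (w : List (Fin 3)) : w ∈ ShuffleClosure I0 ↔ w ∈ E := by
  refine ⟨closure_sub w, fun hw => ?_⟩
  exact steps_of_sublist (by simp [E]) hw (List.nil_sublist w)

lemma isWqo_I0 : IsWqo I0 := by
  intro x hx
  have hpwo : ({l : List (Fin 3) | ∀ a ∈ l, a ∈ (Set.univ : Set (Fin 3))}).PartiallyWellOrderedOn
      (List.SublistForall₂ (· = ·)) :=
    Set.PartiallyWellOrderedOn.partiallyWellOrderedOn_sublistForall₂ (· = ·)
      (Set.Finite.partiallyWellOrderedOn Set.finite_univ)
  obtain ⟨i, j, hij, h⟩ := hpwo fun n => ⟨x n, fun a _ => Set.mem_univ a⟩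
  refine ⟨i, j, hij, ?_⟩
  have hi : x i ∈ E := closure_sub _ (hx i)
  have hj : x j ∈ E := closure_sub _ (hx j)
  refine steps_of_sublist hi hj ?_
  have h' : List.SublistForall₂ (fun a b : Fin 3 => a = b) (x i) (x j) := h
  rw [List.sublistForall₂_iff] at h'
  obtain ⟨l, h1, h2⟩ := h'
  have : x i = l := List.forall₂_eq_eq_eq ▸ h1
  rw [this]
  exact h2

/-- automaton for the sorted words -/
def sortAut : DFA (Fin 3) (Option (Fin 3)) where
  step q c := q.bind fun q => if q ≤ c then some c else none
  start := some 0
  accept := {q | q ≠ none}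

lemma sortAut_none (w : List (Fin 3)) : sortAut.evalFrom none w = none := by
  induction w with
  | nil => rfl
  | cons c w ih => rw [DFA.evalFrom_cons]; exact ih

lemma sortAut_some (w : List (Fin 3)) : ∀ q : Fin 3,
    sortAut.evalFrom (some q) w ≠ none ↔ List.IsChain (· ≤ ·) (q :: w) := by
  induction w with
  | nil => intro q; simp
  | cons c w ih =>
      intro q
      rw [DFA.evalFrom_cons, List.isChain_cons_cons]
      by_cases h : q ≤ c
      · have : sortAut.step (some q) c = some c := by simp [sortAut, h]
        rw [this, ih c]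
        simp [h]
      · have : sortAut.step (some q) c = none := by simp [sortAut, h]
        rw [this, sortAut_none]
        simp [h]

lemma mem_sortAut (w : List (Fin 3)) : w ∈ sortAut.accepts ↔ w.Pairwise (· ≤ ·) := by
  rw [DFA.mem_accepts]
  change sortAut.evalFrom (some 0) w ≠ none ↔ _
  rw [sortAut_some, List.isChain_iff_pairwise, List.pairwise_cons]
  simp

lemma not_contextFree : ¬ (ShuffleClosure I0).IsContextFree := by
  rintro ⟨g, hg⟩
  obtain ⟨g', hg'⟩ := Pool.Agent.Helper79.Trans.isContextFree_comap_inter
    (fun a : Fin 3 => [a]) sortAut g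
  have hmem : ∀ w : List (Fin 3), w ∈ g'.language ↔ w ∈ E ∧ w.Pairwise (· ≤ ·) := by
    intro w
    rw [hg']
    change (w.flatMap (fun a => [a]) ∈ g.language ∧ w ∈ sortAut.accepts) ↔ _
    rw [List.flatMap_singleton', mem_sortAut, hg, closure_eq]
  set N := Pool.Agent.TH138.LG.width g' ^ (Pool.Agent.TH138.LG.inputs g').card with hN
  let w : List (Fin 3) := List.replicate (N + 1) 0 ++ List.replicate (N + 1) 1 ++
    List.replicate (N + 1) 2
  have hw : w ∈ g'.language := by
    rw [hmem]
    refine ⟨⟨?_, ?_⟩, ?_⟩
    · simp [w, List.count_append, List.count_replicate]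
    · simp [w, List.count_append, List.count_replicate]
    · simp only [w, List.pairwise_append, List.mem_append, List.mem_replicate]
      refine ⟨⟨?_, ?_, ?_⟩, ?_, ?_⟩
      · simp [List.pairwise_replicate]
      · simp [List.pairwise_replicate]
      · rintro a ⟨-, rfl⟩ b ⟨-, rfl⟩; decide
      · simp [List.pairwise_replicate]
      · rintro a (⟨-, rfl⟩ | ⟨-, rfl⟩) b ⟨-, rfl⟩ <;> decide
  obtain ⟨u, v, x, y, z, hw', hvy, hpump⟩ := Pool.Agent.TH138.LG.pumping (g := g') hw (by
    simp only [w, List.length_append, List.length_replicate, ← hN]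
    omega)
  have h1 := (hmem _).1 (hpump 1)
  have h2 := (hmem _).1 (hpump 2)
  have hconst : ∀ t : List (Fin 3), (t ++ t).Pairwise (· ≤ ·) → ∀ a ∈ t, ∀ b ∈ t, a = b := by
    intro t ht a ha b hb
    rw [List.pairwise_append] at ht
    exact le_antisymm (ht.2.2 a ha b hb) (ht.2.2 b hb a ha)
  have e2 : (List.replicate 2 v).flatten = v ++ v := by simp [List.replicate_succ]
  have e2' : (List.replicate 2 y).flatten = y ++ y := by simp [List.replicate_succ]
  have e1 : (List.replicate 1 v).flatten = v := by simp
  have e1' : (List.replicate 1 y).flatten = y := by simp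
  rw [e2, e2'] at h2
  rw [e1, e1'] at h1
  obtain ⟨⟨c01, c12⟩, -⟩ := h1
  obtain ⟨⟨d01, d12⟩, hs⟩ := h2
  have hv : ∀ a ∈ v, ∀ b ∈ v, a = b := by
    apply hconst
    refine List.Pairwise.sublist ?_ hs
    have : (v ++ v).Sublist (u ++ (v ++ v)) := List.sublist_append_right _ _
    exact ((this.trans (List.sublist_append_left _ x)).trans
      (List.sublist_append_left _ (y ++ y))).trans (List.sublist_append_left _ z)
  have hy : ∀ a ∈ y, ∀ b ∈ y, a = b := by
    apply hconst
    refine List.Pairwise.sublist ?_ hs
    have : (y ++ y).Sublist (u ++ (v ++ v) ++ x ++ (y ++ y)) := List.sublist_append_right _ _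
    exact this.trans (List.sublist_append_left _ z)
  simp only [List.count_append] at c01 c12 d01 d12
  have k01 : v.count 0 + y.count 0 = v.count 1 + y.count 1 := by omega
  have k12 : v.count 1 + y.count 1 = v.count 2 + y.count 2 := by omega
  have hpos : 0 < v.count 0 + y.count 0 := by
    by_contra hc
    have z0 : v.count 0 + y.count 0 = 0 := by omega
    have z1 : v.count 1 + y.count 1 = 0 := by omega
    have z2 : v.count 2 + y.count 2 = 0 := by omega
    have : ∀ a : Fin 3, a ∉ v ∧ a ∉ y := by
      intro a
      rw [← List.count_eq_zero, ← List.count_eq_zero]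
      rcases fin3 a with rfl | rfl | rfl
      · exact ⟨by omega, by omega⟩
      · exact ⟨by omega, by omega⟩
      · exact ⟨by omega, by omega⟩
    rcases hvy with h | h
    · exact h (List.eq_nil_iff_forall_not_mem.2 fun a => (this a).1)
    · exact h (List.eq_nil_iff_forall_not_mem.2 fun a => (this a).2)
  have hm : ∀ a : Fin 3, a ∈ v ∨ a ∈ y := by
    intro a
    rw [← List.count_pos_iff, ← List.count_pos_iff]
    rcases fin3 a with rfl | rfl | rfl
    · omega
    · omega
    · omega
  have n01 : (0 : Fin 3) ≠ 1 := by decide
  have n02 : (0 : Fin 3) ≠ 2 := by decide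
  have n12 : (1 : Fin 3) ≠ 2 := by decide
  rcases hm 0 with a0 | a0 <;> rcases hm 1 with a1 | a1 <;> rcases hm 2 with a2 | a2
  · exact n01 (hv _ a0 _ a1)
  · exact n01 (hv _ a0 _ a1)
  · exact n02 (hv _ a0 _ a2)
  · exact n12 (hy _ a1 _ a2)
  · exact n12 (hv _ a1 _ a2)
  · exact n02 (hy _ a0 _ a2)
  · exact n01 (hy _ a0 _ a1)
  · exact n01 (hy _ a0 _ a1)

/-- There are a finite alphabet and a finite set `I` of nonempty words for which `⊢_I*` is a well
quasi-order on `L_I` but `L_I` is not context-free. -/
theorem result : ∃ (A : Type) (_ : Fintype A) (I : Set (List A)), I.Finite ∧ (∀ w ∈ I, w ≠ []) ∧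
    IsWqo I ∧ ¬ (ShuffleClosure I).IsContextFree :=
  ⟨Fin 3, inferInstance, I0, I0_finite, I0_ne, isWqo_I0, not_contextFree⟩

end Pool.Agent.Results.MP_709eaf_lc.PermutationsAbc
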